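import Pool.Agent.Run7.h619.PR.Iface
import Pool.Agent.Run7.h619.AX.Prod

/-!
# Products of hyperbolic sets (piece PROD of the project of helper619)
-/

set_option autoImplicit false
set_option linter.unusedSectionVars false

open scoped Manifold ContDiff Topology
open Filter Set Metric

universe u v w

namespace Run7.h958.PR

open Pool.Agent.H718R2.G Pool.Agent.TH80.OMS Run7.h619.AA Run7.h619.PR
open Run7.h619.AX (Dv Dv_comp pr1 pr2 pr1_apply pr2_apply pr_eta pr1_smooth pr2_smooth pr1_diff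
  pr2_diff pr_inj pr_surj IsTanNorm pnorm pnorm_norm)

section

variable {k b n : ℕ} {M : Type v} {B : Type w} {N : Type u} [TopologicalSpace M]
  [ChartedSpace (V k) M] [TopologicalSpace B] [ChartedSpace (V b) B] [TopologicalSpace N]
  [ChartedSpace (V n) N] (Θ : PDiff k b n M B N)

theorem pr1_map {A : N → N} {a : M → M} {c : B → B}
    (hmap : ∀ x y, A (Θ.pt x y) = Θ.pt (a x) (c y)) (z : N) : pr1 Θ (A z) = a (pr1 Θ z) := by
  have h1 : Θ.pt (pr1 Θ z) (pr2 Θ z) = z := pr_eta Θ z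
  have h2 := hmap (pr1 Θ z) (pr2 Θ z)
  rw [h1] at h2
  rw [h2]
  exact pr1_apply Θ _

theorem pr2_map {A : N → N} {a : M → M} {c : B → B}
    (hmap : ∀ x y, A (Θ.pt x y) = Θ.pt (a x) (c y)) (z : N) : pr2 Θ (A z) = c (pr2 Θ z) := by
  have h1 : Θ.pt (pr1 Θ z) (pr2 Θ z) = z := pr_eta Θ z
  have h2 := hmap (pr1 Θ z) (pr2 Θ z)
  rw [h1] at h2
  rw [h2]
  exact pr2_apply Θ _

theorem d1_map {A : N → N} {a : M → M} {c : B → B} (hA : MDifferentiable (𝓡 n) (𝓡 n) A)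
    (ha : MDifferentiable (𝓡 k) (𝓡 k) a) (hmap : ∀ x y, A (Θ.pt x y) = Θ.pt (a x) (c y)) (z : N)
    (v : V n) : Dv n k (pr1 Θ) (A z) (dv n A z v) = dv k a (pr1 Θ z) (Dv n k (pr1 Θ) z v) := by
  have e : pr1 Θ ∘ A = a ∘ pr1 Θ := by
    funext z
    exact pr1_map Θ hmap z
  have h1 := Dv_comp (n := n) (k := n) (l := k) z (pr1_diff Θ (A z)) (hA z)
  have h2 := Dv_comp (n := n) (k := k) (l := k) z (ha (pr1 Θ z)) (pr1_diff Θ z)
  rw [e, h2] at h1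
  exact (congrArg (fun L => L v) h1).symm

theorem d2_map {A : N → N} {a : M → M} {c : B → B} (hA : MDifferentiable (𝓡 n) (𝓡 n) A)
    (hc : MDifferentiable (𝓡 b) (𝓡 b) c) (hmap : ∀ x y, A (Θ.pt x y) = Θ.pt (a x) (c y)) (z : N)
    (v : V n) : Dv n b (pr2 Θ) (A z) (dv n A z v) = dv b c (pr2 Θ z) (Dv n b (pr2 Θ) z v) := by
  have e : pr2 Θ ∘ A = c ∘ pr2 Θ := by
    funext z
    exact pr2_map Θ hmap z
  have h1 := Dv_comp (n := n) (k := n) (l := b) z (pr2_diff Θ (A z)) (hA z)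
  have h2 := Dv_comp (n := n) (k := b) (l := b) z (hc (pr2 Θ z)) (pr2_diff Θ z)
  rw [e, h2] at h1
  exact (congrArg (fun L => L v) h1).symm

theorem iter_map {A : N → N} {a : M → M} {c : B → B}
    (hmap : ∀ x y, A (Θ.pt x y) = Θ.pt (a x) (c y)) (m : ℕ) :
    ∀ x y, A^[m] (Θ.pt x y) = Θ.pt (a^[m] x) (c^[m] y) := by
  induction m with
  | zero => intro x y; rfl
  | succ m ih =>
    intro x y
    rw [Function.iterate_succ_apply', ih, hmap, Function.iterate_succ_apply',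
      Function.iterate_succ_apply']

theorem iter_diff {A : N → N} (hA : MDifferentiable (𝓡 n) (𝓡 n) A) (m : ℕ) :
    MDifferentiable (𝓡 n) (𝓡 n) A^[m] := by
  induction m with
  | zero => exact mdifferentiable_id
  | succ m ih =>
    rw [Function.iterate_succ']
    exact hA.comp ih

/-- the sum of two families of subspaces -/
noncomputable def sub (E1 : M → Submodule ℝ (V k)) (E2 : B → Submodule ℝ (V b)) (z : N) :
    Submodule ℝ (V n) :=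
  ((E1 (pr1 Θ z)).comap (Dv n k (pr1 Θ) z).toLinearMap) ⊓
    ((E2 (pr2 Θ z)).comap (Dv n b (pr2 Θ) z).toLinearMap)

theorem mem_sub {E1 : M → Submodule ℝ (V k)} {E2 : B → Submodule ℝ (V b)} {z : N} {v : V n} :
    v ∈ sub Θ E1 E2 z ↔ Dv n k (pr1 Θ) z v ∈ E1 (pr1 Θ z) ∧ Dv n b (pr2 Θ) z v ∈ E2 (pr2 Θ z) :=
  Iff.rfl

theorem sub_inv {A : N → N} {a : M → M} {c : B → B} (hA : MDifferentiable (𝓡 n) (𝓡 n) A)
    (ha : MDifferentiable (𝓡 k) (𝓡 k) a) (hc : MDifferentiable (𝓡 b) (𝓡 b) c)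
    (hmap : ∀ x y, A (Θ.pt x y) = Θ.pt (a x) (c y)) {E1 : M → Submodule ℝ (V k)}
    {E2 : B → Submodule ℝ (V b)} {z : N}
    (h1 : ∀ v, v ∈ E1 (pr1 Θ z) ↔ dv k a (pr1 Θ z) v ∈ E1 (a (pr1 Θ z)))
    (h2 : ∀ v, v ∈ E2 (pr2 Θ z) ↔ dv b c (pr2 Θ z) v ∈ E2 (c (pr2 Θ z))) (v : V n) :
    v ∈ sub Θ E1 E2 z ↔ dv n A z v ∈ sub Θ E1 E2 (A z) := by
  rw [mem_sub, mem_sub, d1_map Θ hA ha hmap, d2_map Θ hA hc hmap, pr1_map Θ hmap, pr2_map Θ hmap,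
    ← h1, ← h2]

theorem sub_compl {S1 U1 : M → Submodule ℝ (V k)} {S2 U2 : B → Submodule ℝ (V b)} {z : N}
    (h1 : IsCompl (S1 (pr1 Θ z)) (U1 (pr1 Θ z))) (h2 : IsCompl (S2 (pr2 Θ z)) (U2 (pr2 Θ z))) :
    IsCompl (sub Θ S1 S2 z) (sub Θ U1 U2 z) := by
  constructor
  · rw [Submodule.disjoint_def]
    intro v hv hv'
    rw [mem_sub] at hv hv'
    exact pr_inj Θ z v (Submodule.disjoint_def.1 h1.1 _ hv.1 hv'.1)
      (Submodule.disjoint_def.1 h2.1 _ hv.2 hv'.2)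
  · rw [codisjoint_iff, eq_top_iff]
    intro v _
    have e1 : Dv n k (pr1 Θ) z v ∈ S1 (pr1 Θ z) ⊔ U1 (pr1 Θ z) := by
      rw [codisjoint_iff.1 h1.2]
      trivial
    have e2 : Dv n b (pr2 Θ) z v ∈ S2 (pr2 Θ z) ⊔ U2 (pr2 Θ z) := by
      rw [codisjoint_iff.1 h2.2]
      trivial
    obtain ⟨s1, hs1, t1, ht1, h1'⟩ := Submodule.mem_sup.1 e1
    obtain ⟨s2, hs2, t2, ht2, h2'⟩ := Submodule.mem_sup.1 e2
    obtain ⟨s, hsa, hsb⟩ := pr_surj Θ z s1 s2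
    refine Submodule.mem_sup.2 ⟨s, ?_, v - s, ?_, by abel⟩
    · rw [mem_sub, hsa, hsb]
      exact ⟨hs1, hs2⟩
    · rw [mem_sub, map_sub, map_sub, hsa, hsb, ← h1', ← h2', add_sub_cancel_left,
        add_sub_cancel_left]
      exact ⟨ht1, ht2⟩

end

section

variable {k b n : ℕ} {M : Type v} {B : Type w} {N : Type u} [TopologicalSpace M]
  [ChartedSpace (V k) M] [IsManifold (𝓡 k) ∞ M] [TopologicalSpace B] [ChartedSpace (V b) B]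
  [IsManifold (𝓡 b) ∞ B] [TopologicalSpace N] [ChartedSpace (V n) N] [IsManifold (𝓡 n) ∞ N]
  (Θ : PDiff k b n M B N)

theorem sub_closed {E1 : M → Submodule ℝ (V k)} {E2 : B → Submodule ℝ (V b)} {K : Set M}
    {L : Set B} {J : Set N} (hJ : IsClosed J) (h1 : IsClosedSub K E1) (h2 : IsClosedSub L E2)
    (hJ1 : ∀ z ∈ J, pr1 Θ z ∈ K) (hJ2 : ∀ z ∈ J, pr2 Θ z ∈ L) :
    IsClosedSub J (sub Θ E1 E2) := by
  have c1 : Continuous (tangentMap (𝓡 n) (𝓡 k) (pr1 Θ)) :=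
    (pr1_smooth Θ).continuous_tangentMap (by simp)
  have c2 : Continuous (tangentMap (𝓡 n) (𝓡 b) (pr2 Θ)) :=
    (pr2_smooth Θ).continuous_tangentMap (by simp)
  have c0 : Continuous fun p : TangentBundle (𝓡 n) N => p.1 :=
    FiberBundle.continuous_proj (V n) (TangentSpace (𝓡 n) : N → Type _)
  have h3 := ((hJ.preimage c0).inter (h1.preimage c1)).inter (h2.preimage c2)
  have e : {p : TangentBundle (𝓡 n) N | p.1 ∈ J ∧ p.2 ∈ sub Θ E1 E2 p.1} =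
      (((fun p : TangentBundle (𝓡 n) N => p.1) ⁻¹' J ∩ tangentMap (𝓡 n) (𝓡 k) (pr1 Θ) ⁻¹'
        {p : TangentBundle (𝓡 k) M | p.1 ∈ K ∧ p.2 ∈ E1 p.1}) ∩
        tangentMap (𝓡 n) (𝓡 b) (pr2 Θ) ⁻¹'
        {p : TangentBundle (𝓡 b) B | p.1 ∈ L ∧ p.2 ∈ E2 p.1}) := by
    ext p
    constructor
    · rintro ⟨hp, hp1, hp2⟩
      exact ⟨⟨hp, hJ1 _ hp, hp1⟩, hJ2 _ hp, hp2⟩
    · rintro ⟨⟨hp, _, hp1⟩, _, hp2⟩
      exact ⟨hp, hp1, hp2⟩
  show IsClosed {p : TangentBundle (𝓡 n) N | p.1 ∈ J ∧ p.2 ∈ sub Θ E1 E2 p.1}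
  rw [e]
  exact h3

/-- the sum of the norms of the two components -/
noncomputable def qsum (q1 : M → V k → ℝ) (q2 : B → V b → ℝ) (z : N) (v : V n) : ℝ :=
  q1 (pr1 Θ z) (Dv n k (pr1 Θ) z v) + q2 (pr2 Θ z) (Dv n b (pr2 Θ) z v)

theorem toTan {q : N → V n → ℝ} (hq : IsNormOn q) :
    IsTanNorm n N (fun p : TangentBundle (𝓡 n) N => q p.1 p.2) where
  cont := hq.cont
  add_le := fun x v w => hq.add_le x v w
  smul := fun x c v => hq.smul x c v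
  pos := fun x v hv => hq.pos x v hv

theorem qsum_norm {q1 : M → V k → ℝ} {q2 : B → V b → ℝ} (h1 : IsNormOn q1) (h2 : IsNormOn q2) :
    IsNormOn (qsum Θ q1 q2 : N → V n → ℝ) := by
  have h3 := pnorm_norm (Θ := Θ) (toTan h1) (toTan h2)
  exact ⟨h3.cont, fun x v w => h3.add_le x v w, fun x c v => h3.smul x c v,
    fun x v hv => h3.pos x v hv⟩

theorem norm_nonneg' {q : N → V n → ℝ} (hq : IsNormOn q) (x : N) (v : V n) : 0 ≤ q x v :=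
  Run7.h619.AX.IsTanNorm.nonneg (toTan hq) x v

theorem contr_sum {A : N → N} {a : M → M} {c : B → B} (hA : MDifferentiable (𝓡 n) (𝓡 n) A)
    (ha : MDifferentiable (𝓡 k) (𝓡 k) a) (hc : MDifferentiable (𝓡 b) (𝓡 b) c)
    (hmap : ∀ x y, A (Θ.pt x y) = Θ.pt (a x) (c y)) {E1 : M → Submodule ℝ (V k)}
    {E2 : B → Submodule ℝ (V b)} {K : Set M} {L : Set B} {J : Set N} {q1 : M → V k → ℝ}
    {q2 : B → V b → ℝ} (hq1 : IsNormOn q1) (hq2 : IsNormOn q2) {C1 C2 μ1 μ2 C μ : ℝ}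
    (hC1 : 0 < C1) (hC2 : 0 < C2) (hμ1 : 0 < μ1) (hμ2 : 0 < μ2) (h1 : Contr a K E1 q1 C1 μ1)
    (h2 : Contr c L E2 q2 C2 μ2) (hJ1 : ∀ z ∈ J, pr1 Θ z ∈ K) (hJ2 : ∀ z ∈ J, pr2 Θ z ∈ L)
    (h1C : C1 ≤ C) (h2C : C2 ≤ C) (h1μ : μ1 ≤ μ) (h2μ : μ2 ≤ μ) :
    Contr A J (sub Θ E1 E2) (qsum Θ q1 q2) C μ := by
  intro z hz v hv m
  have hv' := (mem_sub Θ).1 hv
  have i1 := h1 _ (hJ1 z hz) _ hv'.1 m
  have i2 := h2 _ (hJ2 z hz) _ hv'.2 m
  have hm := iter_map Θ hmap m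
  have e1 := d1_map Θ (iter_diff hA m) (iter_diff ha m) hm z v
  have e2 := d2_map Θ (iter_diff hA m) (iter_diff hc m) hm z v
  have e3 := pr1_map Θ hm z
  have e4 := pr2_map Θ hm z
  show q1 (pr1 Θ (A^[m] z)) (Dv n k (pr1 Θ) (A^[m] z) (dv n A^[m] z v)) +
    q2 (pr2 Θ (A^[m] z)) (Dv n b (pr2 Θ) (A^[m] z) (dv n A^[m] z v)) ≤
    C * μ ^ m * (q1 (pr1 Θ z) (Dv n k (pr1 Θ) z v) + q2 (pr2 Θ z) (Dv n b (pr2 Θ) z v))
  rw [e1, e2, e3, e4]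
  have j1 : C1 * μ1 ^ m ≤ C * μ ^ m :=
    mul_le_mul h1C (pow_le_pow_left₀ hμ1.le h1μ m) (pow_nonneg hμ1.le m) (hC1.le.trans h1C)
  have j2 : C2 * μ2 ^ m ≤ C * μ ^ m :=
    mul_le_mul h2C (pow_le_pow_left₀ hμ2.le h2μ m) (pow_nonneg hμ2.le m) (hC2.le.trans h2C)
  have n1 := norm_nonneg' hq1 (pr1 Θ z) (Dv n k (pr1 Θ) z v)
  have n2 := norm_nonneg' hq2 (pr2 Θ z) (Dv n b (pr2 Θ) z v)
  rw [mul_add]
  exact add_le_add (i1.trans (mul_le_mul_of_nonneg_right j1 n1))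
    (i2.trans (mul_le_mul_of_nonneg_right j2 n2))

end

/-- Products of hyperbolic sets. -/
theorem t_PROD : S_PROD.{u, v, w} := by
  intro k b n M B N _ _ _ _ _ _ _ _ _ _ _ _ _ _ r hr Θ f g F hmap K L J hK hL hJc hJF hJ
  obtain ⟨-, hfK, q1, S1, U1, C1, μ1, hq1, sp1, hC1, hμ1, hμ1', cs1, cu1⟩ := hK
  obtain ⟨-, hgL, q2, S2, U2, C2, μ2, hq2, sp2, hC2, hμ2, hμ2', cs2, cu2⟩ := hL
  have hr0 : (r : WithTop ℕ∞) ≠ 0 := by
    intro h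
    have h1 : r = 0 := by exact_mod_cast h
    rw [h1] at hr
    exact absurd hr (by simp)
  have dF : MDifferentiable (𝓡 n) (𝓡 n) F := F.contMDiff.mdifferentiable hr0
  have df : MDifferentiable (𝓡 k) (𝓡 k) f := f.contMDiff.mdifferentiable hr0
  have dg : MDifferentiable (𝓡 b) (𝓡 b) g := g.contMDiff.mdifferentiable hr0
  have dF' : MDifferentiable (𝓡 n) (𝓡 n) F.symm := F.symm.contMDiff.mdifferentiable hr0
  have df' : MDifferentiable (𝓡 k) (𝓡 k) f.symm := f.symm.contMDiff.mdifferentiable hr0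
  have dg' : MDifferentiable (𝓡 b) (𝓡 b) g.symm := g.symm.contMDiff.mdifferentiable hr0
  have hmap' : ∀ x y, F.symm (Θ.pt x y) = Θ.pt (f.symm x) (g.symm y) := by
    intro x y
    have h1 := hmap (f.symm x) (g.symm y)
    rw [f.apply_symm_apply, g.apply_symm_apply] at h1
    rw [← h1, F.symm_apply_apply]
  have hJ1 : ∀ z ∈ J, pr1 Θ z ∈ K := by
    intro z hz
    obtain ⟨x, hx, y, hy, rfl⟩ := hJ z hz
    have h1 : pr1 Θ (Θ.pt x y) = x := pr1_apply Θ (x, y)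
    rw [h1]
    exact hx
  have hJ2 : ∀ z ∈ J, pr2 Θ z ∈ L := by
    intro z hz
    obtain ⟨x, hx, y, hy, rfl⟩ := hJ z hz
    have h1 : pr2 Θ (Θ.pt x y) = y := pr2_apply Θ (x, y)
    rw [h1]
    exact hy
  refine ⟨hJc, hJF, qsum Θ q1 q2, sub Θ S1 S2, sub Θ U1 U2, max C1 C2, max μ1 μ2,
    qsum_norm Θ hq1 hq2, ?_, lt_max_of_lt_left hC1, lt_max_of_lt_left hμ1, max_lt hμ1' hμ2', ?_, ?_⟩
  · exact ⟨fun z hz => sub_compl Θ (sp1.compl _ (hJ1 z hz)) (sp2.compl _ (hJ2 z hz)),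
      fun z hz => sub_inv Θ dF df dg hmap (sp1.inv_s _ (hJ1 z hz)) (sp2.inv_s _ (hJ2 z hz)),
      fun z hz => sub_inv Θ dF df dg hmap (sp1.inv_u _ (hJ1 z hz)) (sp2.inv_u _ (hJ2 z hz)),
      sub_closed Θ hJc sp1.closed_s sp2.closed_s hJ1 hJ2,
      sub_closed Θ hJc sp1.closed_u sp2.closed_u hJ1 hJ2⟩
  · exact contr_sum Θ dF df dg hmap hq1 hq2 hC1 hC2 hμ1 hμ2 cs1 cs2 hJ1 hJ2 (le_max_left _ _)
      (le_max_right _ _) (le_max_left _ _) (le_max_right _ _)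
  · exact contr_sum Θ dF' df' dg' hmap' hq1 hq2 hC1 hC2 hμ1 hμ2 cu1 cu2 hJ1 hJ2 (le_max_left _ _)
      (le_max_right _ _) (le_max_left _ _) (le_max_right _ _)

end Run7.h958.PR
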